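import Pool.Agent.helper66.FB.Spec2
import Pool.Agent.helper66.FB.KC

/-! Module SN (MP_5ae64c_pr, functional form): length of the state. -/

set_option autoImplicit false

open scoped BigOperators Topology
open Filter MeasureTheory

namespace Pool.Agent.helper66.FB

open Finset
open Pool.Agent.helper72.UT (IsFor dep pth rt fors Reg lz)
open Pool.Agent.helper20.HP
open Pool.Agent.helper90.FN (EF glue dn sk avJ Hit)

variable {V : Type} [Fintype V] [DecidableEq V]

theorem SN_Gr_nonneg (K : HW V) (m : ℕ) (x y : V) : 0 ≤ Gr K m x y :=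
  Finset.sum_nonneg (fun u _ => pt_nonneg K u x y)

theorem SN_En_nonneg (K : HW V) (m : ℕ) (A B : Finset V) : 0 ≤ En K m A B :=
  Finset.sum_nonneg (fun x _ => Finset.sum_nonneg (fun y _ => SN_Gr_nonneg K m x y))

theorem SN_En_mono (K : HW V) (m : ℕ) {A B : Finset V} (h : A ⊆ B) : En K m A A ≤ En K m B B := by
  unfold En
  calc ∑ x ∈ A, ∑ y ∈ A, Gr K m x y ≤ ∑ x ∈ A, ∑ y ∈ B, Gr K m x y :=
        Finset.sum_le_sum (fun x _ => Finset.sum_le_sum_of_subset_of_nonneg h
          (fun y _ _ => SN_Gr_nonneg K m x y))
    _ ≤ ∑ x ∈ B, ∑ y ∈ B, Gr K m x y :=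
        Finset.sum_le_sum_of_subset_of_nonneg h
          (fun x _ _ => Finset.sum_nonneg (fun y _ => SN_Gr_nonneg K m x y))

omit [Fintype V] in
/-- hitting the lowest `k` vertices -/
theorem SN_low (A ρ l : List V) (hnd : (A ++ ρ).Nodup) (h : ∃ z ∈ l, z ∈ ρ) :
    (run (A ++ ρ) l).length ≤ ρ.length + l.length := by
  obtain ⟨a, z, c, rfl, hz, ha⟩ := A4_first (P := fun z => z ∈ ρ) h
  rw [run_append, run_cons, A3_run_append_avoid A ρ a ha]
  obtain ⟨u, v, hρ, hu⟩ := A3_split z ρ hz
  have hnd' : (run A a ++ ρ).Nodup := by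
    rw [← A3_run_append_avoid A ρ a ha]
    exact run_nodup hnd a
  have hzA : z ∉ run A a := by
    intro hz'
    exact (List.nodup_append.mp hnd').2.2 z hz' z hz rfl
  have e : stp (run A a ++ ρ) z = z :: v := by
    rw [hρ, ← List.append_assoc]
    apply A3_stp_mem
    rw [List.mem_append]
    rintro (h | h)
    · exact hzA h
    · exact hu h
  rw [e]
  have h1 := run_length_le (z :: v) c
  have h2 : ρ.length = u.length + (v.length + 1) := by
    rw [hρ, List.length_append, List.length_cons]
  rw [List.length_append, List.length_cons]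
  rw [List.length_cons] at h1
  omega

/-- bound of the inner walk -/
theorem SN_inner (hAV : AV_stmt) (hQE : QE_stmt) (K : HW V) (θ : ℝ) (h₀ : ℕ) (hP : Par K θ h₀)
    (hlow : ∀ x y, 1 / (2 * (Fintype.card V : ℝ)) ≤ K.pt h₀ x y) (k T : ℕ) (E q : ℝ) (hk : 1 ≤ k)
    (hE : 0 < E) (hq : 0 ≤ q) (hq1 : q ≤ 1) (hqE : q ≤ (T + 1) * (k : ℝ) ^ 2 / (2 * Fintype.card V * E))
    (y : V) (l : List V) :
    W K k (lst y l) (fun l' => ind (2 * k < (run [y] (l ++ l')).length)) ≤
      ind (E < En K T (y :: l).toFinset (y :: l).toFinset) + (1 - q / 2) ^ (k / (h₀ + T)) := by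
  have hn : (0 : ℝ) < Fintype.card V := by exact_mod_cast hP.card_pos
  have hpow : 0 ≤ (1 - q / 2) ^ (k / (h₀ + T)) := pow_nonneg (by linarith) _
  by_cases hR : E < En K T (y :: l).toFinset (y :: l).toFinset
  · rw [ind_true hR]
    have h1 : W K k (lst y l) (fun l' => ind (2 * k < (run [y] (l ++ l')).length)) ≤ 1 := by
      have := W_mono K k (lst y l) (f := fun l' => ind (2 * k < (run [y] (l ++ l')).length))
        (g := fun _ => 1) (fun l' _ => ind_le_one _)
      rwa [W_const] at this
    linarith
  · rw [ind_false hR, zero_add]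
    rw [not_lt] at hR
    by_cases hlen : (run [y] l).length ≤ k
    · have h0 : W K k (lst y l) (fun l' => ind (2 * k < (run [y] (l ++ l')).length)) = 0 := by
        rw [W_congr K k (lst y l) (g := fun _ => 0) (fun l' hl' => ?_), W_const]
        apply ind_false
        rw [run_append]
        have := run_length_le (run [y] l) l'
        omega
      rw [h0]
      exact hpow
    · rw [not_le] at hlen
      set γ := run [y] l with hγ
      set ρ := γ.drop (γ.length - k) with hρ
      set A := γ.take (γ.length - k) with hA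
      have hAρ : A ++ ρ = γ := List.take_append_drop _ _
      have hρlen : ρ.length = k := by
        rw [hρ, List.length_drop]
        omega
      have hnd : γ.Nodup := run_nodup (List.nodup_singleton y) l
      have hndρ : ρ.Nodup := hnd.sublist (List.drop_sublist _ _)
      set U := ρ.toFinset with hU
      have hUcard : U.card = k := by
        rw [hU, List.toFinset_card_of_nodup hndρ, hρlen]
      have hUsub : U ⊆ (y :: l).toFinset := by
        intro z hz
        rw [hU, List.mem_toFinset] at hz
        have h1 : z ∈ γ := List.mem_of_mem_drop hz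
        have h2 := mem_run h1
        rw [List.mem_toFinset, List.mem_cons]
        simpa using h2
      have hEn : En K T U U ≤ E := (SN_En_mono K T hUsub).trans hR
      have hQ : q ≤ Q K U T := by
        have h1 := hQE V K U T hP.card_pos
        rw [hUcard] at h1
        have hQ0 : 0 ≤ Q K U T := by
          unfold Q
          exact div_nonneg (Finset.sum_nonneg (fun x _ => W_nonneg K T x (fun _ _ => ind_nonneg _)))
            hn.le
        have hT : (0 : ℝ) < (T : ℝ) + 1 := by positivity
        have h2 : ((T + 1) * (k : ℝ) / Fintype.card V) ^ 2 ≤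
            Q K U T * (2 * (T + 1) / Fintype.card V * E) := by
          refine h1.trans ?_
          apply mul_le_mul_of_nonneg_left _ hQ0
          apply mul_le_mul_of_nonneg_left hEn
          positivity
        refine hqE.trans ?_
        rw [div_le_iff₀ (by positivity)]
        have h3 : ((T + 1) * (k : ℝ) / Fintype.card V) ^ 2 * (Fintype.card V : ℝ) ^ 2 / (T + 1) =
            (T + 1) * (k : ℝ) ^ 2 := by
          field_simp
        have h4 : Q K U T * (2 * (T + 1) / Fintype.card V * E) * (Fintype.card V : ℝ) ^ 2 / (T + 1)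
            = Q K U T * (2 * Fintype.card V * E) := by
          field_simp
        rw [← h3, ← h4]
        apply div_le_div_of_nonneg_right _ hT.le
        exact mul_le_mul_of_nonneg_right h2 (by positivity)
      have hav := hAV V K U T h₀ (k / (h₀ + T)) q hP.h_pos hlow hq hQ (lst y l)
      refine le_trans ?_ hav
      have hkk : k = k / (h₀ + T) * (h₀ + T) + k % (h₀ + T) := by
        rw [mul_comm]
        exact (Nat.div_add_mod k (h₀ + T)).symm
      have h5 : W K k (lst y l) (fun l' => ind (2 * k < (run [y] (l ++ l')).length)) ≤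
          W K k (lst y l) (fun l' => ind (∀ z ∈ l', z ∉ U)) := by
        refine W_mono K k _ (fun l' hl' => ?_)
        apply ind_mono
        intro h
        by_contra hcon
        push Not at hcon
        obtain ⟨z, hz, hzU⟩ := hcon
        rw [hU, List.mem_toFinset] at hzU
        have h6 := SN_low A ρ l' (by rw [hAρ]; exact hnd) ⟨z, hz, hzU⟩
        rw [hAρ, hρlen, hl'] at h6
        rw [run_append, ← hγ] at h
        omega
      refine h5.trans ?_
      have h7 : W K (k / (h₀ + T) * (h₀ + T) + k % (h₀ + T)) (lst y l)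
          (fun l' => ind (∀ z ∈ l', z ∉ U)) ≤
          W K (k / (h₀ + T) * (h₀ + T)) (lst y l) (fun l' => ind (∀ z ∈ l', z ∉ U)) := by
        rw [W_split]
        refine W_mono K _ _ (fun l1 _ => ?_)
        calc W K (k % (h₀ + T)) (lst (lst y l) l1) (fun l' => ind (∀ z ∈ l1 ++ l', z ∉ U))
            ≤ W K (k % (h₀ + T)) (lst (lst y l) l1) (fun _ => ind (∀ z ∈ l1, z ∉ U)) := by
              refine W_mono K _ _ (fun l2 _ => ?_)
              apply ind_mono
              intro h z hz
              exact h z (List.mem_append.2 (Or.inl hz))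
          _ = ind (∀ z ∈ l1, z ∉ U) := W_const K _ _ _
      rw [← hkk] at h7
      exact h7

theorem SN (hK1 : K1_stmt) (hK3 : K3_stmt) (hRE : RE_stmt) (hAV : AV_stmt) (hQE : QE_stmt) :
    SN_stmt := by
  intro V _ _ K θ h₀ hP hlow D H hH j k T N E q hk hE hq hq1 hqE
  have hn : (0 : ℝ) < Fintype.card V := by exact_mod_cast hP.card_pos
  set F : V → List V → ℝ := fun y l => ind (2 * k < (run [y] l).length) with hF
  have hF0 : ∀ y l, 0 ≤ F y l := fun y l => ind_nonneg _
  have hF1 : ∀ y l, F y l ≤ 1 := fun y l => ind_le_one _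
  -- long words
  have h1 : kws K D N F ≤ kws K D N (fun _ l => ind (j * H < l.length)) + kws K D (j * H + 1) F := by
    unfold kws
    have h2 : ∀ t ∈ range N, kw K D t F ≤ kw K D t (fun _ l => ind (j * H < l.length)) +
        (if t < j * H + 1 then kw K D t F else 0) := by
      intro t _
      by_cases ht : t < j * H + 1
      · rw [if_pos ht]
        have := kw_nonneg K D t (F := fun _ l => ind (j * H < l.length)) (fun _ _ => ind_nonneg _)
        linarith
      · rw [if_neg ht, add_zero]
        refine kw_mono K D t (fun y _ l hl _ => ?_)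
        have : j * H < l.length := by omega
        rw [ind_true this]
        exact hF1 y l
    refine (Finset.sum_le_sum h2).trans ?_
    rw [Finset.sum_add_distrib]
    apply add_le_add le_rfl
    rw [← Finset.sum_filter]
    apply Finset.sum_le_sum_of_subset_of_nonneg
    · intro t ht
      rw [Finset.mem_filter] at ht
      exact Finset.mem_range.2 ht.2
    · intro t _ _
      exact kw_nonneg K D t hF0
  have h3 := hK3 V K D H hH j N
  -- short words
  have h4 : kws K D (j * H + 1) F ≤ kws K D (j * H + 1) (fun y l => ind (k ≤ l.length) * F y l) := by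
    refine kws_mono K D _ (fun y _ l _ _ => ?_)
    by_cases hkl : k ≤ l.length
    · rw [ind_true hkl, one_mul]
    · rw [ind_false hkl, zero_mul]
      apply le_of_eq
      apply ind_false
      have := run_length_le [y] l
      simp only [List.length_cons, List.length_nil] at this
      omega
  have h5 := kws_long_le K D (j * H + 1) k hF0
  have h6 : kws K D (j * H + 1) (fun y l => W K k (lst y l) (fun l' => F y (l ++ l'))) ≤
      kws K D (j * H + 1) (fun y l => (1 / E) * En K T (y :: l).toFinset (y :: l).toFinset +
        (1 - q / 2) ^ (k / (h₀ + T)) * 1) := by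
    refine kws_mono K D _ (fun y _ l _ _ => ?_)
    have h7 := SN_inner hAV hQE K θ h₀ hP hlow k T E q hk hE hq hq1 hqE y l
    have h8 : ind (E < En K T (y :: l).toFinset (y :: l).toFinset) ≤
        (1 / E) * En K T (y :: l).toFinset (y :: l).toFinset := by
      by_cases hR : E < En K T (y :: l).toFinset (y :: l).toFinset
      · rw [ind_true hR, one_div, inv_mul_eq_div, one_le_div hE]
        exact hR.le
      · rw [ind_false hR]
        exact mul_nonneg (by positivity) (SN_En_nonneg K T _ _)
    calc W K k (lst y l) (fun l' => F y (l ++ l'))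
        ≤ ind (E < En K T (y :: l).toFinset (y :: l).toFinset) +
          (1 - q / 2) ^ (k / (h₀ + T)) := h7
      _ ≤ (1 / E) * En K T (y :: l).toFinset (y :: l).toFinset +
        (1 - q / 2) ^ (k / (h₀ + T)) * 1 := by linarith
  rw [kws_add, kws_mul_left, kws_mul_left] at h6
  have h9 := hRE V K θ h₀ hP D T (j * H)
  have h10 : kws K D (j * H + 1) (fun _ _ => 1) ≤ (Fintype.card V : ℝ) := by
    have := hK1 V K D (j * H + 1) (fun _ => 1) (fun _ => zero_le_one)
    simpa using this
  have hpow : 0 ≤ (1 - q / 2) ^ (k / (h₀ + T)) := pow_nonneg (by linarith) _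
  have h11 : (1 / E) * kws K D (j * H + 1)
      (fun y l => En K T (y :: l).toFinset (y :: l).toFinset) ≤
      (1 / E) * (Fintype.card V * (2 * ((j * H : ℕ) + 1) *
        (θ + ((j * H : ℕ) + 1) * (T + 1) * (3 / (2 * (Fintype.card V : ℝ)))))) :=
    mul_le_mul_of_nonneg_left h9 (by positivity)
  have h12 := mul_le_mul_of_nonneg_left h10 hpow
  have h13 : kws K D N F ≤ (Fintype.card V : ℝ) * (1 / 2) ^ j +
      ((1 / E) * (Fintype.card V * (2 * ((j * H : ℕ) + 1) *
        (θ + ((j * H : ℕ) + 1) * (T + 1) * (3 / (2 * (Fintype.card V : ℝ)))))) +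
        (1 - q / 2) ^ (k / (h₀ + T)) * Fintype.card V) := by
    linarith
  refine h13.trans (le_of_eq ?_)
  push_cast
  ring

end Pool.Agent.helper66.FB
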