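import Pool.Agent.helper66.FB.Spec2
import Pool.Agent.helper66.FB.KC

/-! Module TV (MP_5ae64c_pr, functional form): invariance. -/

set_option autoImplicit false

open scoped BigOperators Topology
open Filter MeasureTheory

namespace Pool.Agent.helper66.FB

open Finset
open Pool.Agent.helper72.UT (IsFor dep pth rt fors Reg lz)
open Pool.Agent.helper20.HP
open Pool.Agent.helper90.FN (EF glue dn sk avJ Hit)

/-- the functional of the whole word -/
noncomputable def TV_f {V : Type} [DecidableEq V] (φ : List V → ℝ) : List V → ℝ
  | [] => 0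
  | a :: l => ind (∀ z ∈ l, z ∉ ({a} : Finset V)) * φ (run [a] l)

theorem TV (hWI : WI_stmt) : TV_stmt := by
  intro V _ _ G d K hG hK x y r
  set φ : List V → ℝ := fun γ => ind (r < ((γ.length - 1 : ℕ) : ℝ)) with hφ
  have hφ1 : ∀ γ, |φ γ| ≤ 1 := by
    intro γ
    rw [abs_of_nonneg (ind_nonneg _)]
    exact ind_le_one _
  have h1 : ∀ z : V, HasSum (fun t => kw K {z} t (fun y l => φ (run [y] l)))
      (EF G {z} (fun g => ∑ v, ind (r < dep {z} g v))) := by
    intro z
    have h := hWI V G d K hG hK {z} (Finset.singleton_nonempty z) φ 1 hφ1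
    have e : (fun g : V → V => ∑ v, φ (pth {z} g v)) = fun g => ∑ v, ind (r < dep {z} g v) := by
      funext g
      refine Finset.sum_congr rfl (fun v _ => ?_)
      simp only [hφ, pth, List.length_iterate, Nat.add_sub_cancel]
    rw [e] at h
    exact h
  have h2 : ∀ t, kw K {x} t (fun y l => φ (run [y] l)) = kw K {y} t (fun y l => φ (run [y] l)) := by
    intro t
    have e : ∀ z : V, kw K {z} t (fun y l => φ (run [y] l)) =
        W K t z (fun l => TV_f φ (z :: l)) := by
      intro z
      unfold kw
      rw [Finset.sum_singleton]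
      rfl
    rw [e, e]
    apply W_inv
    intro σ hσ l
    cases l with
    | nil => rfl
    | cons a l =>
      show ind (∀ z ∈ l.map σ, z ∉ ({σ a} : Finset V)) * φ (run [σ a] (l.map σ)) =
        ind (∀ z ∈ l, z ∉ ({a} : Finset V)) * φ (run [a] l)
      have e1 : run [σ a] (l.map σ) = (run [a] l).map σ := by
        have := run_map σ [a] l
        simpa using this
      rw [e1]
      congr 1
      · apply ind_congr
        simp
      · simp only [hφ, List.length_map]
  have h3 := h1 x
  have h4 := h1 y
  simp only [h2] at h3
  exact h3.unique h4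

end Pool.Agent.helper66.FB
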